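import Pool.Agent.Lib.MP_c0b3d0_co.Final

/-!
Balanced star transposition Gray codes for the permutations of `n ≥ 3` symbols exist exactly
when `n ≠ 4`.
-/

namespace Pool.Agent.Results.MP_c0b3d0_co.Balanced

/-- `π` is a cyclic listing (indices mod `n!`) of all permutations of `Fin n`, each exactly once,
in which `π (j + 1)` is obtained from `π j` by swapping the entries in the first position `0` and
in the position `s j ≠ 0`. -/
def IsStarGrayCode (n : ℕ) [NeZero n] (π : ZMod n.factorial → Equiv.Perm (Fin n))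
    (s : ZMod n.factorial → Fin n) : Prop :=
  Function.Bijective π ∧ ∀ j, s j ≠ 0 ∧ π (j + 1) = π j * Equiv.swap 0 (s j)

/-- Each of the `n - 1` star transpositions is used exactly `n (n - 2)!` times. -/
def IsBalanced (n : ℕ) [NeZero n] (s : ZMod n.factorial → Fin n) : Prop :=
  ∀ i : Fin n, i ≠ 0 → {j | s j = i}.ncard = n * (n - 2).factorial

theorem result (n : ℕ) [NeZero n] (hn : 3 ≤ n) :
    (∃ π s, IsStarGrayCode n π s ∧ IsBalanced n s) ↔ n ≠ 4 :=
  Pool.Agent.Lib.MP_c0b3d0_co.main n hn

end Pool.Agent.Results.MP_c0b3d0_co.Balanced
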