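import Pool.Agent.Lib.MP_c0b3d0_co.Cyc

/-!
Star transposition Gray codes for the permutations of `n ≥ 3` symbols whose flip sequence
consists of `n - 1` blocks, each obtained from the previous one by adding one modulo `n - 1`,
exist exactly when `n ≠ 4`.
-/

namespace Pool.Agent.Results.MP_c0b3d0_co.Cyclic

/-- `π` is a cyclic listing (indices mod `n!`) of all permutations of `Fin n`, each exactly once,
in which `π (j + 1)` is obtained from `π j` by swapping the entries in the first position `0` and
in the position `s j ≠ 0`. -/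
def IsStarGrayCode (n : ℕ) [NeZero n] (π : ZMod n.factorial → Equiv.Perm (Fin n))
    (s : ZMod n.factorial → Fin n) : Prop :=
  Function.Bijective π ∧ ∀ j, s j ≠ 0 ∧ π (j + 1) = π j * Equiv.swap 0 (s j)

/-- After `n (n - 2)!` steps the flip sequence repeats with every position replaced by the next
one in the cyclic order `1, 2, …, n - 1`. -/
def IsBlockCyclic (n : ℕ) (s : ZMod n.factorial → Fin n) : Prop :=
  ∀ j, (s (j + (n * (n - 2).factorial : ℕ))).val = (s j).val % (n - 1) + 1

theorem result (n : ℕ) [NeZero n] (hn : 3 ≤ n) :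
    (∃ π s, IsStarGrayCode n π s ∧ IsBlockCyclic n s) ↔ n ≠ 4 :=
  Pool.Agent.Lib.MP_c0b3d0_co.main_cyc n hn

end Pool.Agent.Results.MP_c0b3d0_co.Cyclic
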